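import Mathlib

set_option autoImplicit false

/-! Definitions: Billey-Postnikov decompositions of elements of a Coxeter group. -/

namespace Pool.Agent.R330.BP

variable {B : Type*} {M : CoxeterMatrix B} {W : Type*} [Group W] (cs : CoxeterSystem M W)

/-- The standard parabolic subgroup `W_J`. -/
def parab (J : Set B) : Subgroup W := Subgroup.closure (cs.simple '' J)

/-- The set `W^J` of the `v` with `ℓ(v s) > ℓ(v)` for all `s ∈ J`. -/
def minRep (J : Set B) : Set W := {v | ∀ j ∈ J, cs.length v < cs.length (v * cs.simple j)}

/-- The support: the letters of the reduced words for `w`. -/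
def supp (w : W) : Set B := {i | ∃ ω : List B, cs.IsReduced ω ∧ cs.wordProd ω = w ∧ i ∈ ω}

/-- The left descent set. -/
def leftDesc (u : W) : Set B := {i | cs.length (cs.simple i * u) < cs.length u}

/-- `J ∈ BP(w)`: the factorisation `w = w^J w_J` is a Billey-Postnikov decomposition. -/
def IsBP (w : W) (J : Set B) : Prop :=
  ∃ x ∈ minRep cs J, ∃ y ∈ parab cs J, w = x * y ∧ supp cs x ∩ J ⊆ leftDesc cs y

end Pool.Agent.R330.BP
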