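import Pool.Agent.Helper376.LC.Cox
import Pool.Agent.R676.Cox.Geo
import Pool.Agent.R330.BP.Defs

set_option autoImplicit false

/-! Words, exchange, parabolic subgroups and supports. -/

namespace Pool.Agent.R330.BP

open Pool.Agent.Helper376.LC

variable {B : Type*} {M : CoxeterMatrix B} {W : Type*} [Group W] {cs : CoxeterSystem M W}

lemma ss (i : B) (w : W) : cs.simple i * (cs.simple i * w) = w := by
  rw [← mul_assoc, cs.simple_mul_simple_self, one_mul]

lemma ss' (i : B) (w : W) : w * cs.simple i * cs.simple i = w := by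
  rw [mul_assoc, cs.simple_mul_simple_self, mul_one]

/-- `t` is a left inversion -/
lemma mem_Ninv {w t : W} : t ∈ Ninv cs w ↔ cs.IsReflection t ∧ cs.length (t * w) < cs.length w :=
  Iff.rfl

lemma simple_mem_Ninv (w : W) (i : B) :
    cs.simple i ∈ Ninv cs w ↔ cs.length (cs.simple i * w) < cs.length w := by
  rw [mem_Ninv]
  exact ⟨fun h => h.2, fun h => ⟨cs.isReflection_simple i, h⟩⟩

/-- strong exchange -/
lemma mem_leftInvSeq_of_Ninv (ω : List B) (t : W) (h : t ∈ Ninv cs (cs.wordProd ω)) :
    t ∈ cs.leftInvSeq ω := by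
  induction ω generalizing t with
  | nil =>
    have h2 := h.2
    rw [cs.wordProd_nil, cs.length_one] at h2
    omega
  | cons i ω ih =>
    rw [cs.wordProd_cons, mem_Ninv_simple_mul'] at h
    rw [CoxeterSystem.leftInvSeq, List.mem_cons]
    rcases h with h | h
    · exact Or.inl h.1
    · right
      rw [List.mem_map]
      refine ⟨_, ih _ h.2, ?_⟩
      simp only [MulAut.conj_apply, cs.inv_simple]
      rw [mul_assoc, mul_assoc, mul_assoc, ss, ← mul_assoc, mul_assoc, cs.simple_mul_simple_self,
        mul_one]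

lemma strong_exchange (ω : List B) (t : W) (h : t ∈ Ninv cs (cs.wordProd ω)) :
    ∃ σ : List B, σ.Sublist ω ∧ σ.length + 1 = ω.length ∧ t * cs.wordProd ω = cs.wordProd σ := by
  have h1 := mem_leftInvSeq_of_Ninv ω t h
  obtain ⟨j, hj, hji⟩ := List.mem_iff_getElem.mp h1
  have hj' : j < ω.length := by simpa using hj
  refine ⟨ω.eraseIdx j, List.eraseIdx_sublist _ _, ?_, ?_⟩
  · rw [List.length_eraseIdx_of_lt hj']
    omega
  · rw [← hji, ← List.getD_eq_getElem _ 1 hj, cs.getD_leftInvSeq_mul_wordProd]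

lemma IsReduced.tail {i : B} {ω : List B} (h : cs.IsReduced (i :: ω)) : cs.IsReduced ω := by
  have := h.drop 1
  simpa using this

lemma IsReduced.lt {i : B} {ω : List B} (h : cs.IsReduced (i :: ω)) :
    cs.length (cs.wordProd ω) < cs.length (cs.simple i * cs.wordProd ω) := by
  have h1 : cs.length (cs.wordProd (i :: ω)) = (i :: ω).length := h.eq
  have h2 : cs.length (cs.wordProd ω) = ω.length := (IsReduced.tail h).eq
  rw [cs.wordProd_cons] at h1
  rw [h1, h2, List.length_cons]
  omega

lemma isReduced_cons {i : B} {ω : List B} (h : cs.IsReduced ω)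
    (h2 : cs.length (cs.wordProd ω) < cs.length (cs.simple i * cs.wordProd ω)) :
    cs.IsReduced (i :: ω) := by
  have h3 := cs.length_simple_mul (cs.wordProd ω) i
  have h4 : cs.length (cs.wordProd ω) = ω.length := h.eq
  show cs.length (cs.wordProd (i :: ω)) = (i :: ω).length
  rw [cs.wordProd_cons, List.length_cons]
  omega

/-- deletion -/
lemma exists_reduced_sublist (ω : List B) :
    ∃ σ : List B, σ.Sublist ω ∧ cs.IsReduced σ ∧ cs.wordProd σ = cs.wordProd ω := by
  induction ω with
  | nil => exact ⟨[], List.Sublist.refl _, by show cs.length (cs.wordProd []) = 0; simp, rfl⟩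
  | cons i ω ih =>
    obtain ⟨σ, h1, h2, h3⟩ := ih
    rcases cs.length_simple_mul (cs.wordProd σ) i with h4 | h4
    · exact ⟨i :: σ, h1.cons_cons i, isReduced_cons h2 (by omega), by
        rw [cs.wordProd_cons, cs.wordProd_cons, h3]⟩
    · obtain ⟨τ, h5, h6, h7⟩ := strong_exchange σ (cs.simple i)
        ((simple_mem_Ninv _ _).2 (by omega))
      refine ⟨τ, (h5.trans h1).trans (List.sublist_cons_self i ω), ?_, ?_⟩
      · show cs.length (cs.wordProd τ) = τ.length
        have h8 : cs.length (cs.wordProd σ) = σ.length := h2.eq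
        rw [← h7]
        omega
      · rw [← h7, cs.wordProd_cons, h3]

lemma mem_parab_of_word {J : Set B} {ω : List B} (h : ∀ i ∈ ω, i ∈ J) :
    cs.wordProd ω ∈ parab cs J := by
  induction ω with
  | nil => rw [cs.wordProd_nil]; exact one_mem _
  | cons i ω ih =>
    rw [cs.wordProd_cons]
    refine mul_mem (Subgroup.subset_closure ⟨i, h i (by simp), rfl⟩) (ih ?_)
    intro j hj
    exact h j (by simp [hj])

lemma simple_mem_parab {J : Set B} {i : B} (h : i ∈ J) : cs.simple i ∈ parab cs J :=
  Subgroup.subset_closure ⟨i, h, rfl⟩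

lemma exists_word_of_mem {J : Set B} {w : W} (h : w ∈ parab cs J) :
    ∃ ω : List B, (∀ i ∈ ω, i ∈ J) ∧ cs.wordProd ω = w := by
  induction h using Subgroup.closure_induction with
  | mem x hx =>
    obtain ⟨i, hi, rfl⟩ := hx
    exact ⟨[i], by simpa using hi, by simp⟩
  | one => exact ⟨[], by simp, by simp⟩
  | mul x y _ _ hx hy =>
    obtain ⟨ω, h1, rfl⟩ := hx
    obtain ⟨τ, h2, rfl⟩ := hy
    refine ⟨ω ++ τ, ?_, by rw [cs.wordProd_append]⟩
    intro i hi
    rcases List.mem_append.1 hi with h | h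
    · exact h1 i h
    · exact h2 i h
  | inv x _ hx =>
    obtain ⟨ω, h1, rfl⟩ := hx
    refine ⟨ω.reverse, ?_, by rw [cs.wordProd_reverse]⟩
    intro i hi
    exact h1 i (by simpa using hi)

lemma exists_reduced_of_mem {J : Set B} {w : W} (h : w ∈ parab cs J) :
    ∃ ω : List B, (∀ i ∈ ω, i ∈ J) ∧ cs.IsReduced ω ∧ cs.wordProd ω = w := by
  obtain ⟨ω, h1, h2⟩ := exists_word_of_mem h
  obtain ⟨σ, h3, h4, h5⟩ := exists_reduced_sublist (cs := cs) ω
  exact ⟨σ, fun i hi => h1 i (h3.subset hi), h4, by rw [h5, h2]⟩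

lemma simple_mem_parab_iff {J : Set B} {i : B} : cs.simple i ∈ parab cs J ↔ i ∈ J := by
  constructor
  · intro h
    obtain ⟨ω, h1, h2, h3⟩ := exists_reduced_of_mem h
    have h4 : cs.length (cs.wordProd ω) = ω.length := h2.eq
    rw [h3, cs.length_simple] at h4
    obtain ⟨k, rfl⟩ := List.length_eq_one_iff.1 h4.symm
    rw [cs.wordProd_singleton] at h3
    have h5 := Pool.Agent.R676.Cox.simple_injective (cs := cs) h3
    rw [← h5]
    exact h1 k (by simp)
  · exact simple_mem_parab

/-- all letters of a reduced word of an element of `W_J` are in `J` -/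
lemma letters_mem {J : Set B} {ω : List B} (hr : cs.IsReduced ω)
    (h : cs.wordProd ω ∈ parab cs J) : ∀ i ∈ ω, i ∈ J := by
  induction ω with
  | nil => simp
  | cons i ω ih =>
    obtain ⟨τ, h1, h2, h3⟩ := exists_reduced_of_mem h
    have h4 := IsReduced.lt hr
    have h5 : cs.simple i ∈ Ninv cs (cs.wordProd τ) := by
      rw [simple_mem_Ninv, h3, cs.wordProd_cons, ss]
      exact h4
    obtain ⟨σ, h6, h7, h8⟩ := strong_exchange τ _ h5
    have h9 : cs.wordProd ω ∈ parab cs J := by
      have : cs.wordProd ω = cs.wordProd σ := by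
        rw [← h8, h3, cs.wordProd_cons, ss]
      rw [this]
      exact mem_parab_of_word fun j hj => h1 j (h6.subset hj)
    have h10 : cs.simple i ∈ parab cs J := by
      have : cs.simple i = cs.wordProd (i :: ω) * (cs.wordProd ω)⁻¹ := by
        rw [cs.wordProd_cons]; group
      rw [this]
      exact mul_mem h (inv_mem h9)
    intro j hj
    rcases List.mem_cons.1 hj with rfl | hj
    · exact simple_mem_parab_iff.1 h10
    · exact ih (IsReduced.tail hr) h9 j hj

lemma mem_parab_iff {J : Set B} {w : W} : w ∈ parab cs J ↔ supp cs w ⊆ J := by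
  constructor
  · rintro h i ⟨ω, h1, rfl, h2⟩
    exact letters_mem h1 h i h2
  · intro h
    obtain ⟨ω, h1, rfl⟩ := cs.exists_isReduced w
    exact mem_parab_of_word fun i hi => h ⟨ω, h1, rfl, hi⟩

lemma mem_parab_supp (w : W) : w ∈ parab cs (supp cs w) := mem_parab_iff.2 (le_refl _)

lemma parab_inter {J K : Set B} {w : W} (h1 : w ∈ parab cs J) (h2 : w ∈ parab cs K) :
    w ∈ parab cs (J ∩ K) := by
  rw [mem_parab_iff] at *
  exact Set.subset_inter h1 h2

lemma parab_mono {J K : Set B} (h : J ⊆ K) {w : W} (h1 : w ∈ parab cs J) : w ∈ parab cs K := by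
  rw [mem_parab_iff] at *
  exact h1.trans h

/-- every reduced word sees the whole support -/
lemma supp_eq {ω : List B} (h : cs.IsReduced ω) : supp cs (cs.wordProd ω) = {i | i ∈ ω} := by
  apply Set.Subset.antisymm
  · rw [← mem_parab_iff]
    exact mem_parab_of_word fun i hi => hi
  · intro i hi
    exact ⟨ω, h, rfl, hi⟩

lemma supp_inv (w : W) : supp cs w⁻¹ = supp cs w := by
  have key : ∀ w : W, supp cs w⁻¹ ⊆ supp cs w := by
    intro w
    rw [← mem_parab_iff]
    exact inv_mem (mem_parab_supp w)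
  refine Set.Subset.antisymm (key w) ?_
  have := key w⁻¹
  rwa [inv_inv] at this

lemma isReduced_append {ω τ : List B} (h1 : cs.IsReduced ω) (h2 : cs.IsReduced τ)
    (h : cs.length (cs.wordProd ω * cs.wordProd τ)
      = cs.length (cs.wordProd ω) + cs.length (cs.wordProd τ)) : cs.IsReduced (ω ++ τ) := by
  show cs.length (cs.wordProd (ω ++ τ)) = (ω ++ τ).length
  rw [cs.wordProd_append, h, h1.eq, h2.eq, List.length_append]

lemma supp_mul {u v : W} (h : cs.length (u * v) = cs.length u + cs.length v) :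
    supp cs (u * v) = supp cs u ∪ supp cs v := by
  obtain ⟨ω, h1, rfl⟩ := cs.exists_isReduced u
  obtain ⟨τ, h2, rfl⟩ := cs.exists_isReduced v
  have h3 := isReduced_append h1 h2 h
  rw [← cs.wordProd_append, supp_eq h3, supp_eq h1, supp_eq h2]
  ext i
  simp

lemma leftDesc_subset_supp {w : W} {i : B} (h : cs.length (cs.simple i * w) < cs.length w) :
    i ∈ supp cs w := by
  obtain ⟨ω, h1, h2⟩ := cs.exists_isReduced (cs.simple i * w)
  have h3 : w = cs.wordProd (i :: ω) := by
    rw [cs.wordProd_cons, ← h2, ss]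
  refine ⟨i :: ω, isReduced_cons h1 ?_, h3.symm, by simp⟩
  rw [← h2, ss]
  exact h

lemma Ninv_subset_parab {J : Set B} {v t : W} (hv : v ∈ parab cs J) (ht : t ∈ Ninv cs v) :
    t ∈ parab cs J := by
  obtain ⟨ω, h1, rfl⟩ := exists_word_of_mem hv
  clear hv
  induction ω generalizing t with
  | nil =>
    have h2 := ht.2
    rw [cs.wordProd_nil, cs.length_one] at h2
    omega
  | cons i ω ih =>
    rw [cs.wordProd_cons, mem_Ninv_simple_mul'] at ht
    have hi : cs.simple i ∈ parab cs J := simple_mem_parab (h1 i (by simp))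
    rcases ht with h | h
    · rw [h.1]
      exact hi
    · have h2 := ih (t := cs.simple i * t * cs.simple i) (fun j hj => h1 j (by simp [hj])) h.2
      have h3 : t = cs.simple i * (cs.simple i * t * cs.simple i) * cs.simple i := by
        rw [mul_assoc, ss', ss]
      rw [h3]
      exact mul_mem (mul_mem hi h2) hi

lemma Ninv_refl {v t : W} (ht : t ∈ Ninv cs v) : cs.IsReflection t := ht.1

end Pool.Agent.R330.BP
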