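import Pool.Agent.R330.BP.Parab

set_option autoImplicit false

/-! Bruhat order. -/

namespace Pool.Agent.R330.BP

open Pool.Agent.Helper376.LC

variable {B : Type*} {M : CoxeterMatrix B} {W : Type*} [Group W] (cs : CoxeterSystem M W)

/-- Bruhat order -/
def Le (x y : W) : Prop :=
  Relation.ReflTransGen
    (fun a b => ∃ t, cs.IsReflection t ∧ b = t * a ∧ cs.length a < cs.length b) x y

variable {cs}

lemma Le.refl (x : W) : Le cs x x := Relation.ReflTransGen.refl

lemma Le.trans {x y z : W} (h1 : Le cs x y) (h2 : Le cs y z) : Le cs x z :=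
  Relation.ReflTransGen.trans h1 h2

lemma Le.len {x y : W} (h : Le cs x y) : cs.length x ≤ cs.length y := by
  induction h with
  | refl => exact le_refl _
  | tail _ h2 ih =>
    obtain ⟨t, _, _, h3⟩ := h2
    omega

lemma Le.step {t x : W} (ht : cs.IsReflection t) (h : cs.length x < cs.length (t * x)) :
    Le cs x (t * x) := Relation.ReflTransGen.single ⟨t, ht, rfl, h⟩

lemma Le.of_Ninv {t y : W} (h : t ∈ Ninv cs y) : Le cs (t * y) y := by
  refine Relation.ReflTransGen.single ⟨t, h.1, ?_, h.2⟩
  rw [← mul_assoc, h.1.mul_self, one_mul]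

lemma Le.simple_step (i : B) {w : W} (h : cs.length w < cs.length (cs.simple i * w)) :
    Le cs w (cs.simple i * w) := Le.step (cs.isReflection_simple i) h

lemma Le.simple_step' (i : B) {w : W} (h : cs.length (cs.simple i * w) < cs.length w) :
    Le cs (cs.simple i * w) w := Le.of_Ninv ((simple_mem_Ninv _ _).2 h)

lemma Le.right_step (i : B) {w : W} (h : cs.length w < cs.length (w * cs.simple i)) :
    Le cs w (w * cs.simple i) := by
  have h1 : w * cs.simple i = (w * cs.simple i * w⁻¹) * w := by group
  rw [h1]
  rw [h1] at h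
  exact Le.step ((cs.isReflection_simple i).conj w) h

lemma refl_shift {t : W} (i : B) (hne : t ≠ cs.simple i) (w : W)
    (h : cs.simple i * t * cs.simple i ∈ Ninv cs (cs.simple i * w)) : t ∈ Ninv cs w := by
  rw [mem_Ninv_simple_mul'] at h
  have e : cs.simple i * (cs.simple i * t * cs.simple i) * cs.simple i = t := by
    rw [mul_assoc (cs.simple i) t, ss, ss']
  rw [e] at h
  rcases h with h | h
  · exfalso
    apply hne
    rw [h.1, cs.simple_mul_simple_self, one_mul] at e
    exact e.symm
  · exact h.2

/-- lifting for one step -/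
lemma Le.lift_step (i : B) {z t : W} (ht : cs.IsReflection t)
    (h2 : cs.length z < cs.length (t * z)) :
    Le cs (cs.simple i * z) (t * z) ∨ Le cs (cs.simple i * z) (cs.simple i * (t * z)) := by
  rcases lt_or_gt_of_ne (cs.length_simple_mul_ne z i) with h3 | h3
  · exact Or.inl ((Le.simple_step' i h3).trans (Le.step ht h2))
  · by_cases hti : t = cs.simple i
    · left
      rw [hti]
      exact Le.refl _
    · right
      have ht' : cs.IsReflection (cs.simple i * t * cs.simple i) := by
        have := ht.conj (cs.simple i)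
        rwa [cs.inv_simple] at this
      have e : cs.simple i * (t * z) = cs.simple i * t * cs.simple i * (cs.simple i * z) := by
        simp only [mul_assoc]
        rw [ss]
      have h5 : cs.length (cs.simple i * z) < cs.length (cs.simple i * (t * z)) := by
        by_contra hcon
        have h6 : cs.length (cs.simple i * (t * z)) ≠ cs.length (cs.simple i * z) := by
          rw [e]
          exact ht'.length_mul_right_ne _
        have h7 := refl_shift i hti z ⟨ht', by rw [← e]; omega⟩
        have h8 := h7.2
        omega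
      rw [e]
      rw [e] at h5
      exact Le.step ht' h5

/-- lifting property -/
lemma Le.lift (i : B) {z y : W} (h : Le cs z y)
    (hy : cs.length (cs.simple i * y) < cs.length y) : Le cs (cs.simple i * z) y := by
  induction h using Relation.ReflTransGen.head_induction_on with
  | refl => exact Le.simple_step' i hy
  | head h1 h2 ih =>
    obtain ⟨t, ht, e, hlt⟩ := h1
    subst e
    rcases Le.lift_step i ht hlt with h3 | h3
    · exact h3.trans h2
    · exact h3.trans ih

lemma Le.lift' (i : B) {z y : W} (h : Le cs z y)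
    (hy : cs.length y < cs.length (cs.simple i * y)) :
    Le cs (cs.simple i * z) (cs.simple i * y) := by
  refine Le.lift i (h.trans (Le.simple_step i hy)) ?_
  rw [ss]
  exact hy

/-- subword property, first part -/
lemma Le.exists_sublist {x y : W} (h : Le cs x y) (ω : List B) (hω : cs.wordProd ω = y) :
    ∃ σ : List B, σ.Sublist ω ∧ cs.wordProd σ = x := by
  induction h using Relation.ReflTransGen.head_induction_on with
  | refl => exact ⟨ω, List.Sublist.refl _, hω⟩
  | head h1 h2 ih =>
    obtain ⟨t, ht, e, hlt⟩ := h1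
    obtain ⟨σ, h3, h4⟩ := ih
    subst e
    rename_i a c
    have h5 : t ∈ Ninv cs (cs.wordProd σ) := by
      rw [h4]
      refine ⟨ht, ?_⟩
      rw [← mul_assoc, ht.mul_self, one_mul]
      exact hlt
    obtain ⟨τ, h6, h7, h8⟩ := strong_exchange σ t h5
    refine ⟨τ, h6.trans h3, ?_⟩
    rw [← h8, h4, ← mul_assoc, ht.mul_self, one_mul]

/-- subword property, second part -/
lemma Le.of_sublist {σ ω : List B} (h : σ.Sublist ω) (hω : cs.IsReduced ω) :
    Le cs (cs.wordProd σ) (cs.wordProd ω) := by
  induction h with
  | slnil => exact Le.refl _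
  | cons a h1 ih =>
    rw [cs.wordProd_cons]
    exact (ih (IsReduced.tail hω)).trans (Le.simple_step a (IsReduced.lt hω))
  | cons_cons a h1 ih =>
    rw [cs.wordProd_cons, cs.wordProd_cons]
    exact Le.lift' a (ih (IsReduced.tail hω)) (IsReduced.lt hω)

/-- products -/
lemma Le.mul {x u x' v : W} (h1 : Le cs x u) (h2 : Le cs x' v)
    (h : cs.length (u * v) = cs.length u + cs.length v) : Le cs (x * x') (u * v) := by
  obtain ⟨ω, hω, hu⟩ := cs.exists_isReduced u
  obtain ⟨τ, hτ, hv⟩ := cs.exists_isReduced v
  obtain ⟨ω', h3, rfl⟩ := h1.exists_sublist ω hu.symm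
  obtain ⟨τ', h4, rfl⟩ := h2.exists_sublist τ hv.symm
  subst hu hv
  rw [← cs.wordProd_append, ← cs.wordProd_append]
  exact Le.of_sublist (h3.append h4) (isReduced_append hω hτ h)

lemma Le.one (y : W) : Le cs 1 y := by
  obtain ⟨ω, hω, rfl⟩ := cs.exists_isReduced y
  have := Le.of_sublist (List.nil_sublist ω) hω
  rwa [cs.wordProd_nil] at this

/-- right lifting: `x ≤ y j`, where `y j` is longer than `y` and `x j` longer than `x` -/
lemma Le.right_lift (j : B) {x y : W} (h : Le cs x (y * cs.simple j))
    (hy : cs.length y < cs.length (y * cs.simple j))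
    (hx : cs.length x < cs.length (x * cs.simple j)) : Le cs x y := by
  obtain ⟨ω, hω, rfl⟩ := cs.exists_isReduced y
  obtain ⟨σ, h1, rfl⟩ := h.exists_sublist (ω ++ [j]) (by rw [cs.wordProd_append]; simp)
  rw [List.sublist_append_iff] at h1
  obtain ⟨σ1, σ2, rfl, h2, h3⟩ := h1
  rcases List.sublist_singleton.1 h3 with rfl | rfl
  · rw [List.append_nil]
    exact Le.of_sublist h2 hω
  · have h4 := Le.of_sublist h2 hω
    refine Le.trans ?_ h4
    rw [cs.wordProd_append, cs.wordProd_singleton]
    rw [cs.wordProd_append, cs.wordProd_singleton, ss'] at hx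
    have h5 := Le.right_step (cs := cs) j (w := cs.wordProd σ1 * cs.simple j) (by
      rw [ss']; exact hx)
    rwa [ss'] at h5

/-- `x ∈ W^J`, `x ≤ y' y''`, `y'' ∈ W_J` imply `x ≤ y'` -/
lemma Le.minRep {J : Set B} {x y' y'' : W} (hx : x ∈ minRep cs J) (hy' : y' ∈ minRep cs J)
    (hy'' : y'' ∈ parab cs J) (h : Le cs x (y' * y'')) : Le cs x y' := by
  obtain ⟨ω, h1, h2, rfl⟩ := exists_reduced_of_mem hy''
  clear hy''
  induction ω using List.reverseRecOn with
  | nil => rwa [cs.wordProd_nil, mul_one] at h
  | append_singleton ω j ih =>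
    have h3 : cs.IsReduced ω := by
      have := h2.take ω.length
      simpa using this
    have hj : j ∈ J := h1 j (by simp)
    have h4 : ∀ i ∈ ω, i ∈ J := fun i hi => h1 i (by simp [hi])
    have h5 := len_mul hy' (mem_parab_of_word (cs := cs) h4)
    have h6 := len_mul hy' (mem_parab_of_word (cs := cs) h1)
    have h7 : cs.length (cs.wordProd ω) = ω.length := h3.eq
    have h8 : cs.length (cs.wordProd (ω ++ [j])) = (ω ++ [j]).length := h2.eq
    rw [List.length_append, List.length_singleton] at h8
    refine ih h4 h3 ?_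
    rw [cs.wordProd_append, cs.wordProd_singleton] at h h6 h8
    rw [← mul_assoc] at h h6
    refine Le.right_lift j h ?_ (hx j hj)
    omega

/-- if all elements of `I` are left descents of `w`, then `W_I z ≤ w` for `z ≤ w` -/
lemma Le.descents {I : Set B} {w : W} (hI : I ⊆ leftDesc cs w) {r z : W} (hr : r ∈ parab cs I)
    (hz : Le cs z w) : Le cs (r * z) w := by
  obtain ⟨ω, h1, rfl⟩ := exists_word_of_mem hr
  clear hr
  induction ω with
  | nil => rwa [cs.wordProd_nil, one_mul]
  | cons i ω ih =>
    rw [cs.wordProd_cons, mul_assoc]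
    exact Le.lift i (ih fun j hj => h1 j (by simp [hj])) (hI (h1 i (by simp)))

lemma descents_Ninv {I : Set B} {w : W} (hI : I ⊆ leftDesc cs w) {t : W} (ht : cs.IsReflection t)
    (h : t ∈ parab cs I) : t ∈ Ninv cs w := by
  have h1 := (Le.descents hI h (Le.refl w)).len
  have h2 := ht.length_mul_right_ne w
  exact ⟨ht, by omega⟩

lemma descents_len {I : Set B} {w : W} (hI : I ⊆ leftDesc cs w) {q : W} (hq : q ∈ parab cs I) :
    cs.length (q * w) + cs.length q = cs.length w := by
  obtain ⟨ω, h1, h2, rfl⟩ := exists_reduced_of_mem hq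
  clear hq
  induction ω with
  | nil => simp
  | cons i ω ih =>
    have h3 := IsReduced.lt h2
    have h1' : ∀ j ∈ ω, j ∈ I := fun j hj => h1 j (by simp [hj])
    have ih' := ih h1' (IsReduced.tail h2)
    have h4 := cs.length_simple_mul (cs.wordProd ω) i
    have h5 : cs.simple i ∈ Ninv cs (cs.wordProd ω * w) := by
      rw [mem_Ninv_mul']
      right
      refine ⟨fun h6 => ?_, ?_⟩
      · have := (simple_mem_Ninv _ _).1 h6
        omega
      · apply descents_Ninv hI
        · have := (cs.isReflection_simple i).conj (cs.wordProd ω)⁻¹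
          rwa [inv_inv] at this
        · exact mul_mem (mul_mem (inv_mem (mem_parab_of_word h1'))
            (simple_mem_parab (cs := cs) (h1 i (by simp)))) (mem_parab_of_word h1')
    have h6 := h5.2
    have h7 := cs.length_simple_mul (cs.wordProd ω * w) i
    rw [cs.wordProd_cons, mul_assoc]
    omega

end Pool.Agent.R330.BP
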