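import Pool.Agent.R330.BP.Bruhat

set_option autoImplicit false

/-! Intersections. -/

namespace Pool.Agent.R330.BP

open Pool.Agent.Helper376.LC

variable {B : Type*} {M : CoxeterMatrix B} {W : Type*} [Group W] {cs : CoxeterSystem M W}

/-- conjugation by `m` turns the letters of `c` into simple reflections -/
lemma kil {K A : Set B} {m : W} (hK : lmin cs K m) (hA : m ∈ minRep cs A) (ω : List B)
    (h1 : ∀ k ∈ ω, k ∈ K) (h2 : cs.IsReduced ω) (h3 : m⁻¹ * cs.wordProd ω * m ∈ parab cs A) :
    ∀ k ∈ ω, ∃ i ∈ A, m⁻¹ * cs.simple k * m = cs.simple i := by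
  induction ω with
  | nil => simp
  | cons k ω ih =>
    have h1' : ∀ j ∈ ω, j ∈ K := fun j hj => h1 j (by simp [hj])
    have hk : k ∈ K := h1 k (by simp)
    have hlt := IsReduced.lt h2
    have hcm := len_mul_of_lmin hK (mem_parab_of_word (cs := cs) h1')
    have hcm' := len_mul_of_lmin hK (mem_parab_of_word (cs := cs) h1)
    have h4 : cs.simple k ∈ Ninv cs (cs.wordProd (k :: ω) * m) := by
      rw [simple_mem_Ninv, hcm']
      rw [cs.wordProd_cons, mul_assoc, ss, hcm]
      omega
    have e : cs.wordProd (k :: ω) * m = m * (m⁻¹ * cs.wordProd (k :: ω) * m) := by group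
    rw [e, mem_Ninv_mul'] at h4
    have h5 : m⁻¹ * cs.simple k * m ∈ Ninv cs (m⁻¹ * cs.wordProd (k :: ω) * m) := by
      rcases h4 with h | h
      · exfalso
        have := (simple_mem_Ninv _ _).1 h.1
        have := hK k hk
        omega
      · exact h.2
    have h6 := Ninv_subset_parab h3 h5
    have h7 : cs.length (m⁻¹ * cs.simple k * m) = 1 := by
      have h8 := len_mul hA h6
      have h9 := len_mul_of_lmin hK (simple_mem_parab (cs := cs) hk)
      have e2 : m * (m⁻¹ * cs.simple k * m) = cs.simple k * m := by group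
      rw [e2, h9, cs.length_simple] at h8
      omega
    obtain ⟨i, hi⟩ := cs.length_eq_one_iff.1 h7
    have hiA : i ∈ A := by
      rw [hi] at h6
      exact simple_mem_parab_iff.1 h6
    have h10 : m⁻¹ * cs.wordProd ω * m ∈ parab cs A := by
      have e3 : m⁻¹ * cs.wordProd ω * m =
          (m⁻¹ * cs.simple k * m) * (m⁻¹ * cs.wordProd (k :: ω) * m) := by
        have : cs.wordProd ω = cs.simple k * cs.wordProd (k :: ω) := by
          rw [cs.wordProd_cons, ss]
        rw [this]
        group
      rw [e3]
      exact mul_mem h6 h3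
    intro j hj
    rcases List.mem_cons.1 hj with rfl | hj
    · exact ⟨i, hiA, hi⟩
    · exact ih h1' (IsReduced.tail h2) h10 j hj

theorem inter {w : W} {J K : Set B} (hJ : IsBP cs w J) (hK : IsBP cs w K) :
    IsBP cs w (J ∩ K) := by
  obtain ⟨p, hp, q, hq, hw, hpq⟩ := hJ
  obtain ⟨p', hp', q', hq', hw', hpq'⟩ := hK
  obtain ⟨x, hx, y, hy, hxy⟩ := exists_right (cs := cs) (J ∩ K) w
  refine ⟨x, hx, y, hy, hxy, ?_⟩
  rintro i ⟨hix, hiL⟩
  have hyJ : y ∈ parab cs J := parab_mono Set.inter_subset_left hy
  have hyK : y ∈ parab cs K := parab_mono Set.inter_subset_right hy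
  obtain ⟨a, ha⟩ : ∃ a, a = p⁻¹ * x := ⟨_, rfl⟩
  obtain ⟨b, hb⟩ : ∃ b, b = p'⁻¹ * x := ⟨_, rfl⟩
  have hxa : x = p * a := by rw [ha]; group
  have hxb : x = p' * b := by rw [hb]; group
  have hqa : q = a * y := by
    rw [ha, mul_assoc, ← hxy, hw]; group
  have hqb : q' = b * y := by
    rw [hb, mul_assoc, ← hxy, hw']; group
  have haJ : a ∈ parab cs J := by
    have : a = q * y⁻¹ := by rw [hqa]; group
    rw [this]
    exact mul_mem hq (inv_mem hyJ)
  have hbK : b ∈ parab cs K := by
    have : b = q' * y⁻¹ := by rw [hqb]; group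
    rw [this]
    exact mul_mem hq' (inv_mem hyK)
  have haL : a ∈ minRep cs (J ∩ K) :=
    minRep_of_mul Set.inter_subset_left hp haJ (by rwa [← hxa])
  have hbL : b ∈ minRep cs (J ∩ K) :=
    minRep_of_mul Set.inter_subset_right hp' hbK (by rwa [← hxb])
  have hlxa : cs.length x = cs.length p + cs.length a := by
    rw [hxa]; exact len_mul hp haJ
  have hlxb : cs.length x = cs.length p' + cs.length b := by
    rw [hxb]; exact len_mul hp' hbK
  by_cases hib : i ∈ supp cs b
  · -- second case
    obtain ⟨A, hA⟩ : ∃ A, A = supp cs p := ⟨_, rfl⟩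
    obtain ⟨a1, ha1, a2, ha2, ha12⟩ := exists_left (cs := cs) (A ∩ J) a
    have ha1J : a1 ∈ parab cs J := parab_mono Set.inter_subset_right ha1
    have ha1A : a1 ∈ parab cs A := parab_mono Set.inter_subset_left ha1
    have ha2J : a2 ∈ parab cs J := by
      have : a2 = a1⁻¹ * a := by rw [ha12]; group
      rw [this]
      exact mul_mem (inv_mem ha1J) haJ
    have hla : cs.length a = cs.length a1 + cs.length a2 := by
      rw [ha12]; exact len_mul_of_lmin ha2 ha1
    have ha2A : lmin cs A a2 := by
      intro k hk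
      by_cases hkJ : k ∈ J
      · exact ha2 k ⟨hk, hkJ⟩
      · rcases lt_or_gt_of_ne (cs.length_simple_mul_ne a2 k) with h | h
        · exact absurd (mem_parab_iff.1 ha2J (leftDesc_subset_supp h)) hkJ
        · exact h
    have ha2K : a2 ∈ minRep cs K := by
      intro k hk
      rcases lt_or_gt_of_ne (cs.length_mul_simple_ne a2 k) with h | h
      · exfalso
        have hkJ : k ∈ J := by
          have h' : cs.length (cs.simple k * a2⁻¹) < cs.length a2⁻¹ := by
            rw [← cs.length_inv (cs.simple k * a2⁻¹), mul_inv_rev, inv_inv, cs.inv_simple,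
              cs.length_inv]
            exact h
          exact mem_parab_iff.1 (inv_mem ha2J) (leftDesc_subset_supp h')
        have h1 := haL k ⟨hkJ, hk⟩
        have h2 := cs.length_mul_le a1 (a2 * cs.simple k)
        rw [← mul_assoc, ← ha12] at h2
        omega
      · exact h
    -- the conjugate of `b` lies in `W_A`
    have hconj : a * b⁻¹ * a⁻¹ ∈ parab cs A := by
      obtain ⟨ω, hω, hωb⟩ := cs.exists_isReduced b⁻¹
      rw [hωb]
      apply conj_mem_of_Ninv _ _ _ hω
      rw [← hωb]
      intro t ht
      have htK : t ∈ parab cs K := Ninv_subset_parab (inv_mem hbK) ht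
      have htx : t ∈ Ninv cs x⁻¹ := by
        have e : x⁻¹ = b⁻¹ * p'⁻¹ := by rw [← mul_inv_rev, ← hxb]
        rw [e]
        apply Ninv_mul_of_add _ ht
        rw [← e, cs.length_inv, cs.length_inv, cs.length_inv]
        omega
      have htJ : t ∉ parab cs J := by
        intro htJ
        have htL := parab_inter htJ htK
        have h1 := len_mul hx htL
        have h2 := htx.2
        rw [← cs.length_inv (t * x⁻¹), mul_inv_rev, inv_inv, ht.1.inv, cs.length_inv] at h2
        omega
      have e : x⁻¹ = a⁻¹ * p⁻¹ := by rw [← mul_inv_rev, ← hxa]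
      rw [e, mem_Ninv_mul'] at htx
      rcases htx with h | h
      · exact absurd (Ninv_subset_parab (inv_mem haJ) h.1) htJ
      · have h1 := Ninv_subset_parab (J := A) (by
          rw [hA]; exact inv_mem (mem_parab_supp p)) h.2
        rwa [inv_inv] at h1
    have hconj2 : a2 * b * a2⁻¹ ∈ parab cs A := by
      have e : a2 * b * a2⁻¹ = a1⁻¹ * (a * b⁻¹ * a⁻¹)⁻¹ * a1 := by
        rw [ha12]; group
      rw [e]
      exact mul_mem (mul_mem (inv_mem ha1A) (inv_mem hconj)) ha1A
    obtain ⟨ω, hω, hωb, hiω⟩ := hib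
    obtain ⟨j, hjA, hj⟩ := kil (cs := cs) (K := K) (A := A) (m := a2⁻¹) (lmin_inv.2 ha2K)
      (lmin_inv.1 (by rwa [inv_inv])) ω (letters_mem hω (by rwa [hωb])) hω
      (by rw [inv_inv, hωb]; exact hconj2) i hiω
    rw [inv_inv] at hj
    have hjJ : j ∈ J := by
      apply simple_mem_parab_iff (cs := cs).1
      rw [← hj]
      exact mul_mem (mul_mem ha2J (simple_mem_parab (cs := cs) hiL.1)) (inv_mem ha2J)
    have hdesc : A ∩ J ⊆ leftDesc cs q := by rw [hA]; exact hpq
    by_contra hcon
    have hsy : cs.length (cs.simple i * y) = cs.length y + 1 := by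
      rcases cs.length_simple_mul y i with h | h
      · exact h
      · exact absurd (show cs.length (cs.simple i * y) < cs.length y by omega) hcon
    have e1 : (a1 * cs.simple j)⁻¹ * q = a2 * (cs.simple i * y) := by
      rw [hqa, ha12, mul_inv_rev, cs.inv_simple, ← hj]
      group
    have e2 : a1⁻¹ * q = a2 * y := by
      rw [hqa, ha12]; group
    have h1 := descents_len hdesc (q := (a1 * cs.simple j)⁻¹)
      (inv_mem (mul_mem ha1 (simple_mem_parab (cs := cs) ⟨hjA, hjJ⟩)))
    have h2 := descents_len hdesc (q := a1⁻¹) (inv_mem ha1)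
    rw [e1, cs.length_inv] at h1
    rw [e2, cs.length_inv] at h2
    have h3 := len_mul ha2K hyK
    have h4 := len_mul ha2K (mul_mem (simple_mem_parab (cs := cs) hiL.2) hyK)
    have h5 := haL i hiL
    have h6 : a * cs.simple i = (a1 * cs.simple j) * a2 := by
      rw [ha12, ← hj]; group
    have h7 := cs.length_mul_le (a1 * cs.simple j) a2
    rw [← h6] at h7
    omega
  · -- first case
    have hip : i ∈ supp cs p' := by
      have h1 : supp cs x = supp cs p' ∪ supp cs b := by
        rw [hxb]
        apply supp_mul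
        exact len_mul hp' hbK
      rw [h1] at hix
      exact hix.resolve_right hib
    have h1 : cs.simple i ∈ Ninv cs q' := (simple_mem_Ninv _ _).2 (hpq' ⟨hip, hiL.2⟩)
    rw [hqb, mem_Ninv_mul'] at h1
    have hnb : cs.simple i ∉ Ninv cs b := fun h =>
      hib (leftDesc_subset_supp ((simple_mem_Ninv _ _).1 h))
    have h2 : b⁻¹ * cs.simple i * b ∈ Ninv cs y := by
      rcases h1 with h | h
      · exact absurd h.1 hnb
      · exact h.2
    have h3 := Ninv_subset_parab hy h2
    have h4 := len_mul hbL h3
    have e : b * (b⁻¹ * cs.simple i * b) = cs.simple i * b := by group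
    rw [e] at h4
    have h5 : cs.length (cs.simple i * b) = cs.length b + 1 := by
      rcases cs.length_simple_mul b i with h | h
      · exact h
      · exact absurd ((simple_mem_Ninv b i).2 (by omega)) hnb
    have h6 : cs.length (b⁻¹ * cs.simple i * b) = 1 := by omega
    obtain ⟨l, hl⟩ := cs.length_eq_one_iff.1 h6
    have h7 : supp cs (cs.simple i * b) = supp cs (cs.simple i) ∪ supp cs b :=
      supp_mul (by rw [h5, cs.length_simple]; omega)
    have h8 : supp cs (b * cs.simple l) = supp cs b ∪ supp cs (cs.simple l) := by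
      apply supp_mul
      rw [← hl, e, h5, h6]
    have hs : ∀ k : B, supp cs (cs.simple k) = {k} := by
      intro k
      have h9 : cs.IsReduced [k] := by
        show cs.length (cs.wordProd [k]) = 1
        rw [cs.wordProd_singleton, cs.length_simple]
      have := supp_eq h9
      rw [cs.wordProd_singleton] at this
      rw [this]
      ext
      simp
    have h9 : i ∈ supp cs (b * cs.simple l) := by
      rw [← hl, e, h7, hs]
      exact Or.inl rfl
    rw [h8, hs] at h9
    rcases h9 with h9 | h9
    · exact absurd h9 hib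
    · rw [Set.mem_singleton_iff] at h9
      subst h9
      rw [hl] at h2
      exact (simple_mem_Ninv _ _).1 h2

end Pool.Agent.R330.BP
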