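import Pool.Agent.R330.BP.Basic

set_option autoImplicit false

/-! Minimal coset representatives. -/

namespace Pool.Agent.R330.BP

open Pool.Agent.Helper376.LC

variable {B : Type*} {M : CoxeterMatrix B} {W : Type*} [Group W] {cs : CoxeterSystem M W}

/-- if `u` is shortest in `W_J u`, lengths add up -/
lemma len_mul_of_shortest {J : Set B} {u : W}
    (hu : ∀ v ∈ parab cs J, cs.length u ≤ cs.length (v * u)) {v : W} (hv : v ∈ parab cs J) :
    cs.length (v * u) = cs.length v + cs.length u := by
  obtain ⟨ω, h1, h2, rfl⟩ := exists_reduced_of_mem hv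
  clear hv
  induction ω with
  | nil => simp
  | cons i ω ih =>
    have ih' := ih (fun j hj => h1 j (by simp [hj])) (IsReduced.tail h2)
    have hv' : cs.wordProd ω ∈ parab cs J :=
      mem_parab_of_word fun j hj => h1 j (by simp [hj])
    have h3 := IsReduced.lt h2
    have h4 := cs.length_simple_mul (cs.wordProd ω) i
    rw [cs.wordProd_cons, mul_assoc]
    rcases cs.length_simple_mul (cs.wordProd ω * u) i with h5 | h5
    · omega
    · exfalso
      have h6 : cs.simple i ∈ Ninv cs (cs.wordProd ω * u) := (simple_mem_Ninv _ _).2 (by omega)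
      rw [mem_Ninv_mul'] at h6
      rcases h6 with h7 | h7
      · have := (simple_mem_Ninv _ _).1 h7.1
        omega
      · have h8 := h7.2.2
        have h9 := hu _ (mul_mem (mul_mem (inv_mem hv')
          (simple_mem_parab (cs := cs) (h1 i (by simp)))) hv')
        omega

/-- left ascents -/
def lmin (cs : CoxeterSystem M W) (J : Set B) (u : W) : Prop :=
  ∀ j ∈ J, cs.length u < cs.length (cs.simple j * u)

lemma exists_shortest (J : Set B) (w : W) : ∃ u v : W, v ∈ parab cs J ∧ w = v * u ∧
    ∀ v' ∈ parab cs J, cs.length u ≤ cs.length (v' * u) := by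
  classical
  have hne : ∃ n, ∃ u v : W, v ∈ parab cs J ∧ w = v * u ∧ cs.length u = n :=
    ⟨_, w, 1, one_mem _, by simp, rfl⟩
  obtain ⟨u, v, h1, h2, h3⟩ := Nat.find_spec hne
  refine ⟨u, v, h1, h2, ?_⟩
  intro v' hv'
  rw [h3]
  exact Nat.find_min' hne ⟨v' * u, v * v'⁻¹, mul_mem h1 (inv_mem hv'), by rw [h2]; group, rfl⟩

lemma lmin_of_shortest {J : Set B} {u : W}
    (hu : ∀ v ∈ parab cs J, cs.length u ≤ cs.length (v * u)) : lmin cs J u := by
  intro j hj
  have h1 := hu _ (simple_mem_parab (cs := cs) hj)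
  have h2 := cs.length_simple_mul_ne u j
  omega

lemma shortest_of_lmin {J : Set B} {u : W} (hu : lmin cs J u) :
    ∀ v ∈ parab cs J, cs.length u ≤ cs.length (v * u) := by
  obtain ⟨u0, v0, h1, h2, h3⟩ := exists_shortest (cs := cs) J u
  by_cases hv : v0 = 1
  · rw [hv, one_mul] at h2
    rw [h2]
    exact h3
  · exfalso
    obtain ⟨j, hj⟩ := cs.exists_leftDescent_of_ne_one hv
    have hj' : cs.length (cs.simple j * v0) < cs.length v0 := hj
    have hjJ : j ∈ J := mem_parab_iff.1 h1 (leftDesc_subset_supp hj')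
    have h4 := hu j hjJ
    have h5 := len_mul_of_shortest h3 h1
    have h6 := len_mul_of_shortest h3 (mul_mem (simple_mem_parab (cs := cs) hjJ) h1)
    rw [h2, ← mul_assoc, h5, h6] at h4
    omega

lemma len_mul_of_lmin {J : Set B} {u : W} (hu : lmin cs J u) {v : W} (hv : v ∈ parab cs J) :
    cs.length (v * u) = cs.length v + cs.length u :=
  len_mul_of_shortest (shortest_of_lmin hu) hv

lemma lmin_inv {J : Set B} {u : W} : lmin cs J u⁻¹ ↔ u ∈ minRep cs J := by
  constructor
  · intro h j hj
    have h1 := h j hj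
    rw [cs.length_inv, ← cs.length_inv (cs.simple j * u⁻¹), mul_inv_rev, inv_inv,
      cs.inv_simple] at h1
    exact h1
  · intro h j hj
    have h1 := h j hj
    rw [cs.length_inv, ← cs.length_inv (cs.simple j * u⁻¹), mul_inv_rev, inv_inv,
      cs.inv_simple]
    exact h1

lemma len_mul {J : Set B} {u : W} (hu : u ∈ minRep cs J) {v : W} (hv : v ∈ parab cs J) :
    cs.length (u * v) = cs.length u + cs.length v := by
  have h1 := len_mul_of_lmin (lmin_inv.2 hu) (inv_mem hv)
  rw [← mul_inv_rev, cs.length_inv, cs.length_inv, cs.length_inv] at h1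
  omega

lemma minRep_anti {J K : Set B} (h : J ⊆ K) {u : W} (hu : u ∈ minRep cs K) : u ∈ minRep cs J :=
  fun j hj => hu j (h hj)

lemma exists_left (J : Set B) (w : W) : ∃ v ∈ parab cs J, ∃ u, lmin cs J u ∧ w = v * u := by
  obtain ⟨u, v, h1, h2, h3⟩ := exists_shortest (cs := cs) J w
  exact ⟨v, h1, u, lmin_of_shortest h3, h2⟩

lemma exists_right (J : Set B) (w : W) : ∃ u ∈ minRep cs J, ∃ v ∈ parab cs J, w = u * v := by
  obtain ⟨v, h1, u, h2, h3⟩ := exists_left (cs := cs) J w⁻¹
  refine ⟨u⁻¹, lmin_inv.1 (by rwa [inv_inv]), v⁻¹, inv_mem h1, ?_⟩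
  rw [← mul_inv_rev, ← h3, inv_inv]

lemma unique_right {J : Set B} {u v u' v' : W} (hu : u ∈ minRep cs J) (hv : v ∈ parab cs J)
    (hu' : u' ∈ minRep cs J) (hv' : v' ∈ parab cs J) (h : u * v = u' * v') :
    u = u' ∧ v = v' := by
  have h1 : u' = u * (v * v'⁻¹) := by
    rw [← mul_assoc, h]; group
  have h2 := len_mul hu (mul_mem hv (inv_mem hv'))
  have h3 : u = u' * (v' * v⁻¹) := by
    rw [← mul_assoc, ← h]; group
  have h4 := len_mul hu' (mul_mem hv' (inv_mem hv))
  rw [← h1] at h2
  rw [← h3] at h4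
  have h5 : cs.length (v * v'⁻¹) = 0 := by omega
  rw [cs.length_eq_zero_iff, mul_inv_eq_one] at h5
  subst h5
  exact ⟨mul_right_cancel h, rfl⟩

lemma minRep_mul {J U : Set B} (hJ : J ⊆ U) {g x : W} (hg : g ∈ minRep cs U)
    (hx : x ∈ minRep cs J) (hxU : x ∈ parab cs U) : g * x ∈ minRep cs J := by
  intro j hj
  have h1 := len_mul hg hxU
  have h2 := len_mul hg (mul_mem hxU (simple_mem_parab (cs := cs) (hJ hj)))
  have h3 := hx j hj
  rw [mul_assoc, h1, h2]
  omega

/-- a factor of a minimal representative -/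
lemma minRep_of_mul {J L : Set B} (hL : L ⊆ J) {p a : W} (hp : p ∈ minRep cs J)
    (ha : a ∈ parab cs J) (h : p * a ∈ minRep cs L) : a ∈ minRep cs L := by
  intro l hl
  have h1 := len_mul hp ha
  have h2 := len_mul hp (mul_mem ha (simple_mem_parab (cs := cs) (hL hl)))
  have h3 := h l hl
  rw [mul_assoc, h1, h2] at h3
  omega

lemma Ninv_mul_of_add {g h t : W} (hgh : cs.length (g * h) = cs.length g + cs.length h)
    (ht : t ∈ Ninv cs g) : t ∈ Ninv cs (g * h) := by
  rw [mem_Ninv_mul']
  left
  refine ⟨ht, fun h1 => ?_⟩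
  have h2 := ht.2
  have h3 := h1.2
  have h4 : g * h = (t * g) * ((g⁻¹ * t * g) * h) := by
    have := ht.1.mul_self
    calc g * h = (t * t) * g * h := by rw [this, one_mul]
      _ = (t * g) * ((g⁻¹ * t * g) * h) := by group
  have h5 := cs.length_mul_le (t * g) ((g⁻¹ * t * g) * h)
  rw [← h4] at h5
  omega

lemma conj_mem_of_Ninv (H : Subgroup W) (a : W) (ω : List B) (hω : cs.IsReduced ω)
    (h : ∀ t ∈ Ninv cs (cs.wordProd ω), a * t * a⁻¹ ∈ H) : a * cs.wordProd ω * a⁻¹ ∈ H := by
  induction ω with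
  | nil => rw [cs.wordProd_nil, mul_one, mul_inv_cancel]; exact one_mem _
  | cons i ω ih =>
    have h1 := IsReduced.lt hω
    have hi : a * cs.simple i * a⁻¹ ∈ H := by
      apply h
      rw [simple_mem_Ninv, cs.wordProd_cons, ss]
      exact h1
    have h2 : a * cs.wordProd ω * a⁻¹ ∈ H := by
      refine ih (IsReduced.tail hω) ?_
      intro t ht
      have h3 : cs.simple i * t * cs.simple i ∈ Ninv cs (cs.wordProd (i :: ω)) := by
        rw [cs.wordProd_cons, mem_Ninv_simple_mul']
        have e : cs.simple i * (cs.simple i * t * cs.simple i) * cs.simple i = t := by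
          rw [mul_assoc (cs.simple i) t, ss, ss']
        rw [e]
        right
        refine ⟨fun h4 => ?_, ht⟩
        rw [h4, cs.simple_mul_simple_self, one_mul] at e
        rw [← e, simple_mem_Ninv] at ht
        omega
      have h4 := h _ h3
      have e : a * t * a⁻¹ = (a * cs.simple i * a⁻¹) *
          (a * (cs.simple i * t * cs.simple i) * a⁻¹) * (a * cs.simple i * a⁻¹) := by
        have : t = cs.simple i * (cs.simple i * t * cs.simple i) * cs.simple i := by
          rw [mul_assoc (cs.simple i) t, ss, ss']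
        conv_lhs => rw [this]
        group
      rw [e]
      exact mul_mem (mul_mem hi h4) hi
    have e : a * cs.wordProd (i :: ω) * a⁻¹ = (a * cs.simple i * a⁻¹) * (a * cs.wordProd ω * a⁻¹) := by
      rw [cs.wordProd_cons]; group
    rw [e]
    exact mul_mem hi h2

end Pool.Agent.R330.BP
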