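import Pool.Agent.R330.BP.Inter

set_option autoImplicit false

/-! Unions. -/

namespace Pool.Agent.R330.BP

open Pool.Agent.Helper376.LC

variable {B : Type*} {M : CoxeterMatrix B} {W : Type*} [Group W] {cs : CoxeterSystem M W}

/-- for a BP decomposition `w = p q`: `c ∈ W_J`, `c ≤ w` implies `c ≤ q` -/
lemma bp_le {J : Set B} {p q c : W} (hp : p ∈ minRep cs J) (hq : q ∈ parab cs J)
    (hpq : supp cs p ∩ J ⊆ leftDesc cs q) (hc : c ∈ parab cs J) (h : Le cs c (p * q)) :
    Le cs c q := by
  obtain ⟨ω, hω, hωp⟩ := cs.exists_isReduced p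
  obtain ⟨τ, h1, hτ, hτq⟩ := exists_reduced_of_mem hq
  obtain ⟨σ, hσ, hσc⟩ := h.exists_sublist (ω ++ τ) (by rw [cs.wordProd_append, hτq, ← hωp])
  rw [List.sublist_append_iff] at hσ
  obtain ⟨σ1, σ2, rfl, h2, h3⟩ := hσ
  rw [cs.wordProd_append] at hσc
  have h4 : cs.wordProd σ2 ∈ parab cs J := mem_parab_of_word fun i hi => h1 i (h3.subset hi)
  have h5 : cs.wordProd σ1 ∈ parab cs J := by
    have : cs.wordProd σ1 = c * (cs.wordProd σ2)⁻¹ := by rw [← hσc]; group
    rw [this]
    exact mul_mem hc (inv_mem h4)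
  have h6 : cs.wordProd σ1 ∈ parab cs (supp cs p) :=
    mem_parab_of_word fun i hi => ⟨ω, hω, hωp.symm, h2.subset hi⟩
  rw [← hσc]
  apply Le.descents hpq (parab_inter h6 h5)
  have h7 := Le.of_sublist h3 hτ
  rwa [hτq] at h7

/-- one step of the induction for the union -/
lemma union_step {w : W} {J U : Set B} (hJU : J ⊆ U) (hJ : IsBP cs w J) {g v : W}
    (hg : g ∈ minRep cs U) (hv : v ∈ parab cs U) (hw : w = g * v) {u : W}
    (hu : u ∈ parab cs U) (huw : Le cs u w) {j : B} (hj : j ∈ J)
    (huj : cs.length (u * cs.simple j) < cs.length u)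
    (ih : ∀ u' ∈ parab cs U, cs.length u' < cs.length u → Le cs u' w → Le cs u' v) :
    Le cs u v := by
  obtain ⟨p, hp, q, hq, hw', hpq⟩ := hJ
  obtain ⟨v', hv', v'', hv'', hvv⟩ := exists_right (cs := cs) J v
  have hv''U : v'' ∈ parab cs U := parab_mono hJU hv''
  have hv'U : v' ∈ parab cs U := by
    have : v' = v * v''⁻¹ := by rw [hvv]; group
    rw [this]
    exact mul_mem hv (inv_mem hv''U)
  have h1 : p = g * v' ∧ q = v'' := by
    apply unique_right hp hq (minRep_mul hJU hg hv' hv'U) hv''
    rw [← hw', hw, hvv, mul_assoc]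
  obtain ⟨u', hu', u'', hu'', huu⟩ := exists_right (cs := cs) J u
  have hu''U : u'' ∈ parab cs U := parab_mono hJU hu''
  have hu'U : u' ∈ parab cs U := by
    have : u' = u * u''⁻¹ := by rw [huu]; group
    rw [this]
    exact mul_mem hu (inv_mem hu''U)
  have hl := len_mul hu' hu''
  have hne : cs.length u'' ≠ 0 := by
    intro h
    rw [cs.length_eq_zero_iff] at h
    rw [h, mul_one] at huu
    have := hu' j hj
    rw [← huu] at this
    omega
  have h2 : Le cs u'' u := by
    have := Le.mul (Le.one u') (Le.refl u'') hl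
    rwa [one_mul, ← huu] at this
  have h3 : Le cs u' u := by
    have := Le.mul (Le.refl u') (Le.one u'') hl
    rwa [mul_one, ← huu] at this
  have h4 : Le cs u'' v'' := by
    rw [← h1.2]
    apply bp_le hp hq hpq hu''
    rw [← hw']
    exact h2.trans huw
  have h5 : Le cs u' v := ih u' hu'U (by rw [huu, hl]; omega) (h3.trans huw)
  have h6 : Le cs u' v' := by
    rw [hvv] at h5
    exact Le.minRep hu' hv' hv'' h5
  rw [huu, hvv]
  exact Le.mul h6 h4 (len_mul hv' hv'')

theorem union {w : W} {J K : Set B} (hJ : IsBP cs w J) (hK : IsBP cs w K) :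
    IsBP cs w (J ∪ K) := by
  obtain ⟨g, hg, v, hv, hw⟩ := exists_right (cs := cs) (J ∪ K) w
  refine ⟨g, hg, v, hv, hw, ?_⟩
  have key : ∀ n : ℕ, ∀ u ∈ parab cs (J ∪ K), cs.length u = n → Le cs u w → Le cs u v := by
    intro n
    induction n using Nat.strong_induction_on with
    | _ n ih =>
      intro u hu hn huw
      by_cases h1 : u = 1
      · rw [h1]; exact Le.one v
      · obtain ⟨j, hj⟩ := cs.exists_rightDescent_of_ne_one h1
        have hj' : cs.length (u * cs.simple j) < cs.length u := hj
        have hjU : j ∈ J ∪ K := by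
          have h' : cs.length (cs.simple j * u⁻¹) < cs.length u⁻¹ := by
            rw [← cs.length_inv (cs.simple j * u⁻¹), mul_inv_rev, inv_inv, cs.inv_simple,
              cs.length_inv]
            exact hj'
          exact mem_parab_iff.1 (inv_mem hu) (leftDesc_subset_supp h')
        have ih' : ∀ u' ∈ parab cs (J ∪ K), cs.length u' < cs.length u → Le cs u' w →
            Le cs u' v := fun u' h2 h3 h4 => ih _ (by omega) u' h2 rfl h4
        rcases hjU with h | h
        · exact union_step Set.subset_union_left hJ hg hv hw hu huw h hj' ih'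
        · exact union_step Set.subset_union_right hK hg hv hw hu huw h hj' ih'
  rintro i ⟨hi, hiU⟩
  have hsi : Le cs (cs.simple i) g := by
    obtain ⟨ω, hω, hωg, hiω⟩ := hi
    have := Le.of_sublist (List.singleton_sublist.2 hiω) hω
    rwa [cs.wordProd_singleton, hωg] at this
  have h1 : Le cs (cs.simple i * v) w := by
    rw [hw]
    exact Le.mul hsi (Le.refl v) (len_mul hg hv)
  have h2 := (key _ _ (mul_mem (simple_mem_parab (cs := cs) hiU) hv) rfl h1).len
  have h3 := cs.length_simple_mul_ne v i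
  show cs.length (cs.simple i * v) < cs.length v
  omega

end Pool.Agent.R330.BP
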